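import Pool.Agent.P.MP_d483fb_an.Z.SR.IntDef

/-!
From subexponential growth of Lipschitz constants to an invariant kernel: definitions.
-/

open MeasureTheory Filter Topology Set
open scoped RealInnerProductSpace ENNReal

noncomputable section

namespace Pool.Agent.P.MP_d483fb_an.Z.Int

/-- The averaging theorem for representations of subexponential growth with respect to `len`. -/
def StrongT {G : Type} [Group G] [TopologicalSpace G] (len : G → ℝ) : Prop :=
  ∀ (H : Type) [NormedAddCommGroup H] [InnerProductSpace ℝ H] [CompleteSpace H]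
    (π : G →* (H →L[ℝ] H)), (∀ ξ, Continuous fun g => π g ξ) →
    (∀ ε : ℝ, 0 < ε → ∃ C, ∀ g, ‖π g‖ ≤ C * Real.exp (ε * len g)) →
    ∀ ξ, ∃ ζ, (∀ g, π g ζ = ζ) ∧ ∃ C θ : ℝ, 0 < θ ∧ θ < 1 ∧ ∀ᶠ n : ℕ in atTop,
      ∃ η ∈ convexHull ℝ {x | ∃ g, len g ≤ n ∧ x = π g ξ}, ‖ζ - η‖ ≤ C * θ ^ n

/-- A measurable, symmetric, subadditive and locally bounded length function. -/
structure IsLen {G : Type} [Group G] [TopologicalSpace G] [MeasurableSpace G] (len : G → ℝ) :
    Prop where
  nonneg : ∀ g, 0 ≤ len g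
  inv : ∀ g, len g⁻¹ = len g
  mul : ∀ g h, len (g * h) ≤ len g + len h
  meas : Measurable len
  loc : ∃ C, ∀ᶠ g in 𝓝 (1 : G), len g ≤ C

/-- A measurable equivariant choice of a nearest lattice point, with a fundamental domain of finite
measure. -/
structure Dir {G Γ : Type} [Group G] [Group Γ] [MeasurableSpace G] (ι : Γ →* G) (len : G → ℝ)
    (μ : Measure G) where
  c : G → Γ
  meas : ∀ γ, MeasurableSet {g | c g = γ}
  equiv : ∀ g γ, c (g * ι γ) = c g * γ
  near : ∀ g, len (g * (ι (c g))⁻¹) ≤ len g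
  fin : μ {g | c g = 1} ≠ ∞
  right : ∀ γ, μ.map (fun g => g * ι γ) = μ

/-- Every element is a product of linearly many elements of a finite set. -/
def Words {G Γ : Type} [Group G] [Group Γ] (ι : Γ →* G) (len : G → ℝ) : Prop :=
  ∃ (S : Set Γ) (C : ℝ), S.Finite ∧ ∀ γ, ∃ w : List Γ, (∀ s ∈ w, s ∈ S) ∧ w.prod = γ ∧
    (w.length : ℝ) ≤ C * (len (ι γ) + 1)

end Pool.Agent.P.MP_d483fb_an.Z.Int
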