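import Pool.Agent.P.MP_d483fb_an.Z.Int.Defs
import Pool.Agent.P.MP_d483fb_an.Z.Norm.Omega

/-!
An equivariant measure on `G × Y` which is quasi-invariant under left translations with
subexponential density bounds, and finite on a fundamental domain.
-/

open MeasureTheory Filter Topology Set
open scoped ENNReal

set_option linter.unusedSectionVars false

noncomputable section

namespace Pool.Agent.P.MP_d483fb_an.Z.Int

theorem map_iSup_le {X I : Type} [MeasurableSpace X] {f g : X → X} (hf : Measurable f)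
    (hg : Measurable g) (h1 : ∀ z, g (f z) = z) (h2 : ∀ z, f (g z) = z) {m : I → Measure X}
    {Z : Measure X} (h : ∀ i, (m i).map f ≤ Z) : (⨆ i, m i).map f ≤ Z := by
  have h3 : (⨆ i, m i) ≤ Z.map g := iSup_le fun i => by
    have := Measure.map_mono (h i) hg
    rwa [Measure.map_map hg hf, show g ∘ f = id from funext h1, Measure.map_id] at this
  have := Measure.map_mono h3 hf
  rwa [Measure.map_map hf hg, show f ∘ g = id from funext h2, Measure.map_id] at this

theorem restrict_iSup_le {X I : Type} [MeasurableSpace X] {m : I → Measure X} {Z : Measure X}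
    {s : Set X} (hs : MeasurableSet s) (h : ∀ i, (m i).restrict s ≤ Z) :
    (⨆ i, m i).restrict s ≤ Z := by
  have h1 : (⨆ i, m i) ≤ Z.restrict s + (⨆ i, m i).restrict sᶜ := iSup_le fun i => by
    conv_lhs => rw [← Measure.restrict_add_restrict_compl (μ := m i) hs]
    refine add_le_add ?_ (Measure.restrict_mono subset_rfl (le_iSup m i))
    have := Measure.restrict_mono (subset_refl s) (h i)
    rwa [Measure.restrict_restrict hs, inter_self] at this
  have h2 := Measure.restrict_mono (subset_refl s) h1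
  rw [Measure.restrict_add, Measure.restrict_restrict hs, Measure.restrict_restrict hs, inter_self,
    inter_compl_self, Measure.restrict_empty, add_zero] at h2
  exact h2.trans Measure.restrict_le_self

theorem le_of_lintegral {X : Type} [MeasurableSpace X] {m m' : Measure X}
    (h : ∀ Φ : X → ℝ≥0∞, Measurable Φ → ∫⁻ z, Φ z ∂m ≤ ∫⁻ z, Φ z ∂m') : m ≤ m' :=
  Measure.le_iff.2 fun s hs => by
    have := h (s.indicator 1) (measurable_one.indicator hs)
    rwa [lintegral_indicator_one hs, lintegral_indicator_one hs] at this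

variable {G Γ Y : Type} [Group G] [TopologicalSpace G] [IsTopologicalGroup G]
  [LocallyCompactSpace G] [T2Space G] [SecondCountableTopology G] [MeasurableSpace G]
  [BorelSpace G] [Group Γ] [Countable Γ] [MeasurableSpace Y] [MulAction Γ Y]
  [MeasurableConstSMul Γ Y]

/-- The action of the lattice on `G × Y`. -/
def T (ι : Γ →* G) (γ : Γ) (z : G × Y) : G × Y := (z.1 * (ι γ)⁻¹, γ • z.2)

/-- Left translation on `G × Y`. -/
def Lt (h : G) (z : G × Y) : G × Y := (h * z.1, z.2)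

theorem measurable_T (ι : Γ →* G) (γ : Γ) : Measurable (T (Y := Y) ι γ) :=
  (measurable_fst.mul_const _).prodMk (measurable_snd.const_smul γ)

theorem measurable_Lt (h : G) : Measurable (Lt (Y := Y) h) :=
  (measurable_fst.const_mul _).prodMk measurable_snd

theorem T_mul (ι : Γ →* G) (γ δ : Γ) (z : G × Y) : T ι γ (T ι δ z) = T ι (γ * δ) z := by
  simp [T, mul_assoc, mul_smul]

theorem T_one (ι : Γ →* G) (z : G × Y) : T ι 1 z = z := by simp [T]

/-- The weight. -/
def wt (len : G → ℝ) (ω : ℝ → ℝ) (g : G) : ℝ≥0∞ := ENNReal.ofReal (Real.exp (-ω (len g)))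

/-- The basic measure. -/
def m1 (len : G → ℝ) (ω : ℝ → ℝ) (μ : Measure G) (ν : Measure Y) : Measure (G × Y) :=
  (μ.prod ν).withDensity fun z => wt len ω z.1

/-- The supremum of the translates of the basic measure. -/
def mt (ι : Γ →* G) (len : G → ℝ) (ω : ℝ → ℝ) (μ : Measure G) (ν : Measure Y) :
    Measure (G × Y) := ⨆ γ, (m1 len ω μ ν).map (T ι γ)

variable {ι : Γ →* G} {len : G → ℝ} {ω : ℝ → ℝ} {μ : Measure G} [μ.IsHaarMeasure]
  {ν : Measure Y} [IsFiniteMeasure ν]

theorem mt_T_le (γ : Γ) : (mt ι len ω μ ν).map (T ι γ) ≤ mt ι len ω μ ν := by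
  refine map_iSup_le (measurable_T ι γ) (measurable_T ι γ⁻¹) (fun z => by simp [T_mul, T_one])
    (fun z => by simp [T_mul, T_one]) fun δ => ?_
  rw [Measure.map_map (measurable_T ι γ) (measurable_T ι δ),
    show T ι γ ∘ T ι δ = T ι (γ * δ) from funext (T_mul ι γ δ)]
  exact le_iSup (fun γ => (m1 len ω μ ν).map (T ι γ)) _

theorem mt_T (γ : Γ) : (mt ι len ω μ ν).map (T ι γ) = mt ι len ω μ ν := by
  refine le_antisymm (mt_T_le γ) ?_
  have := Measure.map_mono (mt_T_le (ι := ι) (len := len) (ω := ω) (μ := μ) (ν := ν) γ⁻¹)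
    (measurable_T ι γ)
  rwa [Measure.map_map (measurable_T ι γ) (measurable_T ι γ⁻¹),
    show T ι γ ∘ T ι γ⁻¹ = id from funext fun z => by simp [T_mul, T_one], Measure.map_id] at this

theorem m1_le : m1 len ω μ ν ≤ mt ι len ω μ ν := by
  have := le_iSup (fun γ => (m1 len ω μ ν).map (T ι γ)) 1
  rwa [show T (Y := Y) ι 1 = id from funext (T_one ι), Measure.map_id] at this

theorem measurable_wt (hl : IsLen len) (hω : Norm.Sublin ω) : Measurable (wt len ω) :=
  ((hω.continuous.measurable.comp hl.meas).neg.exp).ennreal_ofReal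

theorem lintegral_m1 (hl : IsLen len) (hω : Norm.Sublin ω) {Φ : G × Y → ℝ≥0∞}
    (hΦ : Measurable Φ) :
    ∫⁻ z, Φ z ∂m1 len ω μ ν = ∫⁻ z, wt len ω z.1 * Φ z ∂μ.prod ν :=
  lintegral_withDensity_eq_lintegral_mul _ ((measurable_wt hl hω).comp measurable_fst) hΦ

theorem mt_L (hl : IsLen len) (hω : Norm.Sublin ω) (h : G) :
    (mt ι len ω μ ν).map (Lt h) ≤ ENNReal.ofReal (Real.exp (ω (len h))) • mt ι len ω μ ν := by
  have h1 : (m1 len ω μ ν).map (Lt h) ≤
      ENNReal.ofReal (Real.exp (ω (len h))) • m1 len ω μ ν := by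
    refine le_of_lintegral fun Φ hΦ => ?_
    have hp : MeasurePreserving (Lt h) (μ.prod ν) (μ.prod ν) :=
      (measurePreserving_mul_left μ h).prod (MeasurePreserving.id ν)
    have hm : Measurable fun z : G × Y => wt len ω z.1 * Φ z :=
      ((measurable_wt hl hω).comp measurable_fst).mul hΦ
    rw [lintegral_map hΦ (measurable_Lt h), lintegral_smul_measure,
      lintegral_m1 hl hω (hΦ.fun_comp (measurable_Lt h)), lintegral_m1 hl hω hΦ,
      ← hp.lintegral_comp hm,
      smul_eq_mul, ← lintegral_const_mul' _ _ ENNReal.ofReal_ne_top]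
    refine lintegral_mono fun z => ?_
    rw [← mul_assoc]
    refine mul_le_mul_left ?_ _
    simp only [wt, Lt]
    rw [← ENNReal.ofReal_mul (Real.exp_pos _).le, ← Real.exp_add]
    refine ENNReal.ofReal_le_ofReal (Real.exp_le_exp.2 ?_)
    linarith [hω.comp_mul hl.nonneg hl.mul h z.1]
  refine map_iSup_le (measurable_Lt h) (measurable_Lt h⁻¹) (fun z => by simp [Lt])
    (fun z => by simp [Lt]) fun γ => ?_
  rw [Measure.map_map (measurable_Lt h) (measurable_T ι γ),
    show Lt h ∘ T ι γ = T ι γ ∘ Lt h from funext fun z => by simp [Lt, T, mul_assoc],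
    ← Measure.map_map (measurable_T ι γ) (measurable_Lt h)]
  refine (Measure.map_mono h1 (measurable_T ι γ)).trans ?_
  rw [Measure.map_smul]
  exact smul_le_smul_left _ (le_iSup (fun γ => (m1 len ω μ ν).map (T ι γ)) γ)

/-- The measure on the fundamental domain. -/
def Dir.m (D : Dir ι len μ) (ω : ℝ → ℝ) (ν : Measure Y) : Measure (G × Y) :=
  (mt ι len ω μ ν).restrict {z | D.c z.1 = 1}

theorem Dir.c_inv (D : Dir ι len μ) (g : G) (γ : Γ) : D.c (g * (ι γ)⁻¹) = D.c g * γ⁻¹ := by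
  rw [← map_inv, D.equiv]

theorem Dir.len_le (D : Dir ι len μ) (hl : IsLen len) (g : G) : len (ι (D.c g)) ≤ 2 * len g := by
  have h1 := hl.mul (g * (ι (D.c g))⁻¹)⁻¹ g
  rw [hl.inv, show (g * (ι (D.c g))⁻¹)⁻¹ * g = ι (D.c g) by group] at h1
  linarith [D.near g]

theorem Dir.m_le (D : Dir ι len μ) (hl : IsLen len) (hω : Norm.Sublin ω)
    (hν : ∀ γ : Γ, ν.map (γ • ·) ≤ ENNReal.ofReal (Real.exp (ω (len (ι γ) / 2))) • ν) :
    D.m ω ν ≤ (μ.restrict {g | D.c g = 1}).prod ν := by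
  have hs : MeasurableSet {z : G × Y | D.c z.1 = 1} := measurable_fst (D.meas 1)
  refine restrict_iSup_le hs fun γ => le_of_lintegral fun Φ hΦ => ?_
  have h1 : (μ.prod ν).map (T ι γ) ≤
      ENNReal.ofReal (Real.exp (ω (len (ι γ) / 2))) • μ.prod ν := by
    have h2 : (μ.prod ν).map (T ι γ) = μ.prod (ν.map (γ • ·)) := by
      conv_rhs => rw [← D.right γ⁻¹]
      rw [Measure.map_prod_map _ _ (measurable_mul_const _) (measurable_const_smul γ), map_inv]
      rfl
    rw [h2, ← Measure.prod_smul_right]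
    haveI : IsFiniteMeasure (ENNReal.ofReal (Real.exp (ω (len (ι γ) / 2))) • ν) :=
      Measure.smul_finite ν ENNReal.ofReal_ne_top
    exact Measure.prod_mono le_rfl (hν γ)
  have hi := hΦ.indicator hs
  have hm : Measurable fun z : G × Y =>
      wt len ω (z.1 * ι γ) * {z : G × Y | D.c z.1 = 1}.indicator Φ z :=
    ((measurable_wt hl hω).comp (measurable_fst.mul_const _)).mul hi
  rw [← lintegral_indicator hs, lintegral_map hi (measurable_T ι γ),
    lintegral_m1 hl hω (hi.fun_comp (measurable_T ι γ)), Measure.restrict_prod_eq_prod_univ,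
    show {g | D.c g = 1} ×ˢ (univ : Set Y) = {z : G × Y | D.c z.1 = 1} by ext; simp,
    ← lintegral_indicator hs]
  calc _ = ∫⁻ z, wt len ω (z.1 * ι γ) * {z : G × Y | D.c z.1 = 1}.indicator Φ z
        ∂(μ.prod ν).map (T ι γ) := by
        rw [lintegral_map hm (measurable_T ι γ)]
        simp [T]
    _ ≤ _ := lintegral_mono' h1 le_rfl
    _ ≤ _ := by
        rw [lintegral_smul_measure, smul_eq_mul, ← lintegral_const_mul' _ _ ENNReal.ofReal_ne_top]
        refine lintegral_mono fun z => ?_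
        by_cases hz : z ∈ {z : G × Y | D.c z.1 = 1}
        · rw [← mul_assoc]
          refine mul_le_of_le_one_left' ?_
          have h3 := D.len_le hl (z.1 * ι γ)
          rw [D.equiv, show D.c z.1 = 1 from hz, one_mul] at h3
          rw [wt, ← ENNReal.ofReal_mul (Real.exp_pos _).le, ← Real.exp_add, ENNReal.ofReal_le_one,
            Real.exp_le_one_iff]
          linarith [hω.mono (show len (ι γ) / 2 ≤ len (z.1 * ι γ) by linarith)]
        · simp [indicator_of_notMem hz]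

theorem Dir.finite_m (D : Dir ι len μ) (hl : IsLen len) (hω : Norm.Sublin ω)
    (hν : ∀ γ : Γ, ν.map (γ • ·) ≤ ENNReal.ofReal (Real.exp (ω (len (ι γ) / 2))) • ν) :
    IsFiniteMeasure (D.m ω ν) :=
  haveI : IsFiniteMeasure (μ.restrict {g | D.c g = 1}) := isFiniteMeasure_restrict.2 D.fin
  isFiniteMeasure_of_le _ (D.m_le hl hω hν)

theorem lintegral_split {X : Type} [MeasurableSpace X] (m : Measure X) {c : X → Γ}
    (hc : ∀ γ, MeasurableSet {z | c z = γ}) {Φ : X → ℝ≥0∞} (hΦ : Measurable Φ) :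
    ∫⁻ z, Φ z ∂m = ∑' γ, ∫⁻ z, {z | c z = γ}.indicator Φ z ∂m := by
  rw [← lintegral_tsum fun γ => (hΦ.indicator (hc γ)).aemeasurable]
  refine lintegral_congr fun z => ?_
  rw [tsum_eq_single (c z) fun γ hγ =>
    indicator_of_notMem (show z ∉ {z | c z = γ} from Ne.symm hγ) _,
    indicator_of_mem (show z ∈ {x | c x = c z} from rfl)]

/-- Change of the fundamental domain. -/
theorem Dir.change (D : Dir ι len μ) {c : G → Γ} (hc : ∀ γ, MeasurableSet {g | c g = γ})
    (he : ∀ g γ, c (g * ι γ) = c g * γ) {Φ : G × Y → ℝ≥0∞} (hΦ : Measurable Φ)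
    (hi : ∀ γ z, Φ (T ι γ z) = Φ z) :
    ∫⁻ z, Φ z ∂D.m ω ν = ∫⁻ z, {z : G × Y | c z.1 = 1}.indicator Φ z ∂mt ι len ω μ ν := by
  have hs : ∀ γ, MeasurableSet {z : G × Y | D.c z.1 = γ} := fun γ => measurable_fst (D.meas γ)
  have hs' : ∀ γ, MeasurableSet {z : G × Y | c z.1 = γ} := fun γ => measurable_fst (hc γ)
  rw [Dir.m, ← lintegral_indicator (hs 1), lintegral_split _ hs' (hΦ.indicator (hs 1)),
    lintegral_split _ hs (hΦ.indicator (hs' 1)), ← (Equiv.inv Γ).tsum_eq]
  refine tsum_congr fun γ => ?_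
  conv_rhs => rw [← mt_T γ⁻¹]
  rw [lintegral_map ((hΦ.indicator (hs' 1)).indicator (hs γ)) (measurable_T ι γ⁻¹)]
  refine lintegral_congr fun z => ?_
  have h1 : (T ι γ⁻¹ z).1 = z.1 * ι γ := by simp [T]
  have h2 : T ι γ⁻¹ z ∈ {z : G × Y | D.c z.1 = γ} ↔ z ∈ {z : G × Y | D.c z.1 = 1} := by
    simp only [mem_setOf_eq, h1, D.equiv, mul_eq_right]
  have h3 : T ι γ⁻¹ z ∈ {z : G × Y | c z.1 = 1} ↔ z ∈ {z : G × Y | c z.1 = Equiv.inv Γ γ} := by
    simp only [mem_setOf_eq, h1, he, Equiv.inv_apply, mul_eq_one_iff_eq_inv]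
  classical
  simp only [indicator_apply, h2, h3, hi]
  split_ifs <;> rfl

theorem Dir.lintegral_Lt (D : Dir ι len μ) (hl : IsLen len) (hω : Norm.Sublin ω)
    {Φ : G × Y → ℝ≥0∞} (hΦ : Measurable Φ) (hi : ∀ γ z, Φ (T ι γ z) = Φ z) (h : G) :
    ∫⁻ z, Φ (Lt h⁻¹ z) ∂D.m ω ν ≤ ENNReal.ofReal (Real.exp (ω (len h))) * ∫⁻ z, Φ z ∂D.m ω ν := by
  have hs : MeasurableSet {z : G × Y | D.c z.1 = 1} := measurable_fst (D.meas 1)
  rw [D.change (c := fun g => D.c (h⁻¹ * g)) (Φ := fun z => Φ (Lt h⁻¹ z))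
    (fun γ => measurable_const_mul h⁻¹ (D.meas γ))
    (fun g γ => by rw [← mul_assoc, D.equiv]) (hΦ.comp (measurable_Lt h⁻¹))
    (fun γ z => by rw [← hi γ (Lt h⁻¹ z)]; simp [Lt, T, mul_assoc]), Dir.m,
    ← lintegral_indicator hs, ← smul_eq_mul, ← lintegral_smul_measure, ← hl.inv h]
  refine le_trans (le_of_eq ?_) (lintegral_mono' (mt_L hl hω h⁻¹) le_rfl)
  rw [lintegral_map (hΦ.indicator hs) (measurable_Lt h⁻¹)]
  rfl

theorem Dir.ae_lt_top (D : Dir ι len μ) (hl : IsLen len) (hω : Norm.Sublin ω)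
    {Φ : G × Y → ℝ≥0∞} (hΦ : Measurable Φ) (hi : ∀ γ z, Φ (T ι γ z) = Φ z)
    (hf : ∫⁻ z, Φ z ∂D.m ω ν ≠ ∞) : ∀ᵐ g ∂μ, ∫⁻ y, Φ (g, y) ∂ν < ∞ := by
  have h1 : ∀ δ : Γ, ∀ᵐ g ∂μ, D.c g = δ → ∫⁻ y, Φ (g, y) ∂ν < ∞ := fun δ => by
    have hc : ∀ γ, MeasurableSet {g | δ⁻¹ * D.c g = γ} := fun γ => by
      simpa only [inv_mul_eq_iff_eq_mul] using D.meas (δ * γ)
    have hs : MeasurableSet {z : G × Y | δ⁻¹ * D.c z.1 = 1} := measurable_fst (hc 1)
    rw [D.change hc (fun g γ => by rw [D.equiv, mul_assoc]) hΦ hi] at hf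
    have h2 := ne_top_of_le_ne_top hf (lintegral_mono' m1_le le_rfl)
    have hm : Measurable fun z : G × Y =>
        wt len ω z.1 * {z : G × Y | δ⁻¹ * D.c z.1 = 1}.indicator Φ z :=
      ((measurable_wt hl hω).comp measurable_fst).mul (hΦ.indicator hs)
    rw [lintegral_m1 hl hω (hΦ.indicator hs), lintegral_prod _ hm.aemeasurable] at h2
    filter_upwards [MeasureTheory.ae_lt_top hm.lintegral_prod_right' h2] with g hg hgc
    have h3 : ∀ y, {z : G × Y | δ⁻¹ * D.c z.1 = 1}.indicator Φ (g, y) = Φ (g, y) := fun y =>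
      indicator_of_mem (by simp [hgc]) _
    simp only [h3] at hg
    rw [lintegral_const_mul' (wt len ω g) _ ENNReal.ofReal_ne_top] at hg
    exact ENNReal.lt_top_of_mul_ne_top_right hg.ne (ENNReal.ofReal_pos.2 (Real.exp_pos _)).ne'
  filter_upwards [ae_all_iff.2 h1] with g hg using hg _ rfl

end Pool.Agent.P.MP_d483fb_an.Z.Int
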