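import Pool.Agent.P.MP_d483fb_an.Z.Int.Orbit
import Pool.Agent.P.MP_d483fb_an.Z.Int.Meas

/-!
Averages over the lattice of the translates of a bounded function which converge geometrically in
`L²` and are asymptotically invariant.
-/

open MeasureTheory Filter Topology Set Finsupp
open scoped ENNReal symmDiff

set_option linter.unusedSectionVars false

noncomputable section

namespace Pool.Agent.P.MP_d483fb_an.Z.Int

theorem enorm_sq_eq {X : Type} [MeasurableSpace X] {m : Measure X} (x : Lp ℝ 2 m) {F : X → ℝ}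
    (h : x =ᵐ[m] F) : ENNReal.ofReal (‖x‖ ^ 2) = ∫⁻ z, ‖F z‖ₑ ^ 2 ∂m := by
  have h1 := eLpNorm_nnreal_pow_eq_lintegral (f := F) (μ := m) (p := 2) two_ne_zero
  simp only [ENNReal.coe_ofNat, NNReal.coe_ofNat, ENNReal.rpow_ofNat] at h1
  rw [← h1, ← eLpNorm_congr_ae h, ← Lp.enorm_def, ENNReal.ofReal_pow (norm_nonneg _),
    ofReal_norm_eq_enorm]

theorem coe_lc {X A : Type} [MeasurableSpace X] {m : Measure X} (v : A → Lp ℝ 2 m)
    (F : A → X → ℝ) (h : ∀ a, v a =ᵐ[m] F a) (f : A →₀ ℝ) :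
    linearCombination ℝ v f =ᵐ[m] fun z => linearCombination ℝ (fun a => F a z) f := by
  induction f using Finsupp.induction_linear with
  | zero => simpa [Pi.zero_def] using Lp.coeFn_zero ℝ 2 m
  | add f g hf hg =>
    rw [map_add]
    filter_upwards [Lp.coeFn_add (linearCombination ℝ v f) (linearCombination ℝ v g), hf, hg]
      with z h1 h2 h3
    rw [h1, Pi.add_apply, h2, h3, map_add]
  | single a c =>
    rw [linearCombination_single]
    filter_upwards [Lp.coeFn_smul c (v a), h a] with z h1 h2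
    rw [h1, Pi.smul_apply, h2, linearCombination_single]

theorem measurable_lc {X A : Type} [MeasurableSpace X] {F : A → X → ℝ}
    (h : ∀ a, Measurable (F a)) (f : A →₀ ℝ) :
    Measurable fun z => linearCombination ℝ (fun a => F a z) f := by
  simp only [linearCombination_apply, Finsupp.sum]
  exact Finset.measurable_sum _ fun a _ => (h a).const_mul _

theorem enorm_sub_sq_le (a b c : ℝ) : ‖a - b‖ₑ ^ 2 ≤ 2 * (‖a - c‖ₑ ^ 2 + ‖b - c‖ₑ ^ 2) := by
  have h : ∀ x : ℝ, ‖x‖ₑ ^ 2 = ENNReal.ofReal (x ^ 2) := fun x => by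
    rw [← ofReal_norm_eq_enorm, ← ENNReal.ofReal_pow (norm_nonneg _), Real.norm_eq_abs, sq_abs]
  rw [h, h, h, ← ENNReal.ofReal_add (sq_nonneg _) (sq_nonneg _), ← ENNReal.ofReal_ofNat 2,
    ← ENNReal.ofReal_mul zero_le_two]
  exact ENNReal.ofReal_le_ofReal (by nlinarith [sq_nonneg (a + b - 2 * c)])

variable {G Γ Y : Type} [Group G] [TopologicalSpace G] [IsTopologicalGroup G]
  [LocallyCompactSpace G] [T2Space G] [SecondCountableTopology G] [MeasurableSpace G]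
  [BorelSpace G] [Group Γ] [Countable Γ] [MeasurableSpace Y] [MulAction Γ Y]
  [MeasurableConstSMul Γ Y] {ι : Γ →* G} {len : G → ℝ} {ω : ℝ → ℝ} {μ : Measure G}
  [μ.IsHaarMeasure] {ν : Measure Y} [IsFiniteMeasure ν]

/-- The translates of the induced function. -/
def Dir.fv (D : Dir ι len μ) (u : Y → ℝ) (g : G) (z : G × Y) : ℝ := u (D.c (g⁻¹ * z.1) • z.2)

theorem Dir.measurable_fv (D : Dir ι len μ) {u : Y → ℝ} (hu : Measurable u) (g : G) :
    Measurable (D.fv u g) := fun s hs => by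
  have : D.fv u g ⁻¹' s = ⋃ γ, {z | D.c (g⁻¹ * z.1) = γ} ∩ {z | u (γ • z.2) ∈ s} := by
    ext z
    simp [Dir.fv]
  rw [this]
  exact MeasurableSet.iUnion fun γ => ((measurable_fst.const_mul g⁻¹) (D.meas γ)).inter
    ((hu.comp (measurable_snd.const_smul γ)) hs)

theorem Dir.fv_T (D : Dir ι len μ) (u : Y → ℝ) (g : G) (γ : Γ) (z : G × Y) :
    D.fv u g (T ι γ z) = D.fv u g z := by
  simp only [Dir.fv, T, ← mul_assoc, D.c_inv, smul_smul, inv_mul_cancel_right]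

theorem Dir.fv_mul (D : Dir ι len μ) (u : Y → ℝ) (h g : G) (z : G × Y) :
    D.fv u (h * g) z = D.fv u g (Lt h⁻¹ z) := by
  simp only [Dir.fv, Lt, mul_inv_rev, mul_assoc]

theorem Dir.ae_tsum (D : Dir ι len μ) (hl : IsLen len) (hω : Norm.Sublin ω)
    {Φ : ℕ → G × Y → ℝ≥0∞} (hΦ : ∀ n, Measurable (Φ n)) (hi : ∀ n γ z, Φ n (T ι γ z) = Φ n z)
    {K r : ℝ} (hK : 0 ≤ K) (h0 : 0 ≤ r) (h1 : r < 1)
    (hf : ∀ n, ∫⁻ z, Φ n z ∂D.m ω ν ≤ ENNReal.ofReal (K * r ^ n)) :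
    ∀ᵐ g ∂μ, ∑' n, ∫⁻ y, Φ n (g, y) ∂ν < ∞ := by
  have h2 : ∫⁻ z, ∑' n, Φ n z ∂D.m ω ν ≠ ∞ := by
    rw [lintegral_tsum fun n => (hΦ n).aemeasurable]
    refine ne_top_of_le_ne_top ?_ (ENNReal.tsum_le_tsum hf)
    rw [← ENNReal.ofReal_tsum_of_nonneg (fun n => by positivity)
      ((summable_geometric_of_lt_one h0 h1).mul_left K)]
    exact ENNReal.ofReal_ne_top
  filter_upwards [D.ae_lt_top hl hω (Measurable.ennreal_tsum hΦ)
    (fun γ z => by simp only [hi]) h2] with g hg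
  rwa [lintegral_tsum fun n => ((hΦ n).fun_comp measurable_prodMk_left).aemeasurable] at hg

theorem extract (hl : IsLen len) (hST : StrongT len) (D : Dir ι len μ) (hω : Norm.Sublin ω)
    (hν : ∀ γ : Γ, ν.map (γ • ·) ≤ ENNReal.ofReal (Real.exp (ω (len (ι γ) / 2))) • ν)
    {u : Y → ℝ} (hu : Measurable u) {B : ℝ} (hB : ∀ y, |u y| ≤ B) :
    ∃ (t : ℕ → Γ →₀ ℝ) (N : ℝ) (b : ℕ → ℝ), Geo b ∧
      (∀ n : ℕ, Prob {γ | len (ι γ) ≤ 2 * n + N} (t n)) ∧
      (∀ n, ∫⁻ y, ‖linearCombination ℝ (fun γ => u (γ • y)) (t (n + 1)) -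
        linearCombination ℝ (fun γ => u (γ • y)) (t n)‖ₑ ^ 2 ∂ν ≤ ENNReal.ofReal (b n)) ∧
      ∀ δ : Γ, Tendsto (fun n => ∫⁻ y, ‖linearCombination ℝ (fun γ => u (γ • δ • y)) (t n) -
        linearCombination ℝ (fun γ => u (γ • y)) (t n)‖ₑ ^ 2 ∂ν) atTop (𝓝 0) := by
  haveI := D.finite_m hl hω hν
  have hmem : ∀ g, MemLp (D.fv u g) 2 (D.m ω ν) := fun g =>
    MemLp.of_bound (D.measurable_fv hu g).aestronglyMeasurable B (ae_of_all _ fun z => hB _)
  let v : G → Lp ℝ 2 (D.m ω ν) := fun g => (hmem g).toLp _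
  have hv : ∀ g, v g =ᵐ[D.m ω ν] D.fv u g := fun g => (hmem g).coeFn_toLp
  let η : (G →₀ ℝ) → G × Y → ℝ := fun f z => linearCombination ℝ (fun g => D.fv u g z) f
  have hη : ∀ f, Measurable (η f) := measurable_lc (D.measurable_fv hu)
  have hηT : ∀ f γ z, η f (T ι γ z) = η f z := fun f γ z => by simp only [η, D.fv_T]
  have h1 : ∀ f, linearCombination ℝ v f =ᵐ[D.m ω ν] η f := coe_lc v _ hv
  have h2 : ∀ h f, linearCombination ℝ (fun g => v (h * g)) f =ᵐ[D.m ω ν]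
      fun z => η f (Lt h⁻¹ z) := fun h f => by
    simpa only [D.fv_mul] using coe_lc (fun g => v (h * g)) (fun g => D.fv u (h * g))
      (fun g => hv _) f
  have hb : ∀ h f, ‖linearCombination ℝ (fun g => v (h * g)) f‖ ≤
      Real.exp (ω (len h)) * ‖linearCombination ℝ v f‖ := fun h f => by
    have h3 := D.lintegral_Lt (ν := ν) hl hω (Φ := fun z => ‖η f z‖ₑ ^ 2)
      ((hη f).enorm.pow_const 2) (fun γ z => by rw [hηT]) h
    rw [← enorm_sq_eq _ (h2 h f), ← enorm_sq_eq _ (h1 f), ← ENNReal.ofReal_mul (Real.exp_pos _).le,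
      ENNReal.ofReal_le_ofReal_iff (by positivity)] at h3
    have h4 : 1 ≤ Real.exp (ω (len h)) := Real.one_le_exp (hω.nonneg _ (hl.nonneg h))
    refine abs_le_of_sq_le_sq' (h3.trans ?_) (by positivity) |>.2
    rw [mul_pow]
    gcongr
    nlinarith
  have hc : ContinuousAt v 1 := by
    let F : C(G × G, G) := ⟨fun p => p.1⁻¹ * p.2, by fun_prop⟩
    have h3 := tendsto_measure_symmDiff_preimage_nhds_zero (μ := μ) (ν := μ)
      (F.curry.continuous.tendsto 1) (Eventually.of_forall fun h => measurePreserving_mul_left μ h⁻¹)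
      (measurePreserving_mul_left μ 1⁻¹) (D.meas 1).nullMeasurableSet D.fin
    have h4 := ENNReal.Tendsto.const_mul (a := ENNReal.ofReal ((2 * B) ^ 2) * ν univ) h3
      (Or.inr (ENNReal.mul_ne_top ENNReal.ofReal_ne_top (measure_ne_top _ _)))
    rw [mul_zero] at h4
    have h5 : Tendsto (fun h => ENNReal.ofReal (‖v h - v 1‖ ^ 2)) (𝓝 1) (𝓝 0) := by
      refine tendsto_of_tendsto_of_tendsto_of_le_of_le tendsto_const_nhds h4 (fun _ => zero_le)
        fun h => ?_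
      have h6 : v h - v 1 =ᵐ[D.m ω ν] fun z => D.fv u h z - D.fv u 1 z := by
        filter_upwards [Lp.coeFn_sub (v h) (v 1), hv h, hv 1] with z e1 e2 e3
        rw [e1, Pi.sub_apply, e2, e3]
      set s := (F.curry h ⁻¹' {g | D.c g = 1}) ∆ (F.curry 1 ⁻¹' {g | D.c g = 1}) with hs
      have h7 : MeasurableSet s := ((F.curry h).continuous.measurable (D.meas 1)).symmDiff
        ((F.curry 1).continuous.measurable (D.meas 1))
      simp only
      rw [enorm_sq_eq _ h6]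
      refine (lintegral_mono' (D.m_le hl hω hν) le_rfl).trans ?_
      rw [Measure.restrict_prod_eq_prod_univ, mul_assoc, mul_comm (ν univ), ← Measure.prod_prod,
        ← setLIntegral_const, ← lintegral_indicator (h7.prod .univ),
        ← lintegral_indicator ((D.meas 1).prod .univ)]
      refine lintegral_mono fun z => ?_
      by_cases hz : z ∈ {g | D.c g = 1} ×ˢ (univ : Set Y)
      · rw [Set.indicator_of_mem hz]
        have h8 : D.c z.1 = 1 := hz.1
        by_cases hz' : D.c (h⁻¹ * z.1) = 1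
        · simp [Dir.fv, h8, hz']
        · rw [Set.indicator_of_mem (show z ∈ s ×ˢ (univ : Set Y) from
            ⟨Or.inr ⟨by simpa [F] using h8, hz'⟩, trivial⟩), ← ofReal_norm_eq_enorm,
            ← ENNReal.ofReal_pow (norm_nonneg _)]
          refine ENNReal.ofReal_le_ofReal (pow_le_pow_left₀ (norm_nonneg _) ?_ 2)
          exact (abs_sub _ _).trans ((add_le_add (hB _) (hB _)).trans (by linarith))
      · rw [Set.indicator_of_notMem hz]
        exact zero_le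
    have h6 := (ENNReal.tendsto_toReal ENNReal.zero_ne_top).comp h5
    simp only [Function.comp_def, ENNReal.toReal_ofReal (sq_nonneg _), ENNReal.toReal_zero] at h6
    have h7 := h6.sqrt
    simp only [Real.sqrt_sq (norm_nonneg _), Real.sqrt_zero] at h7
    exact tendsto_iff_norm_sub_tendsto_zero.2 h7
  obtain ⟨f, N, b, ⟨C, θ, hC, hθ, hθ1, hbn⟩, hf, h3, h4⟩ := orbit hl hST v
    (fun h => Real.exp (ω (len h))) (fun _ => (Real.exp_pos _).le) (fun ε hε => by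
      obtain ⟨L, hL⟩ := hω.small ε hε
      exact ⟨Real.exp L, fun g => by
        rw [← Real.exp_add]; exact Real.exp_le_exp.2 (hL _ (hl.nonneg g))⟩) hb hc
  have hA : ∀ᵐ g ∂μ, ∑' n, ∫⁻ y, ENNReal.ofReal (θ⁻¹ ^ n) *
      ‖η (f (n + 1)) (g, y) - η (f n) (g, y)‖ₑ ^ 2 ∂ν < ∞ := by
    refine D.ae_tsum hl hω (Φ := fun n z => ENNReal.ofReal (θ⁻¹ ^ n) *
      ‖η (f (n + 1)) z - η (f n) z‖ₑ ^ 2)
      (fun n => (((hη _).sub (hη _)).enorm.pow_const 2).const_mul _)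
      (fun n γ z => by simp only [hηT]) (sq_nonneg C) hθ.le hθ1 fun n => ?_
    have h6 : linearCombination ℝ v (f (n + 1)) - linearCombination ℝ v (f n) =ᵐ[D.m ω ν]
        fun z => η (f (n + 1)) z - η (f n) z := by
      filter_upwards [Lp.coeFn_sub (linearCombination ℝ v (f (n + 1))) (linearCombination ℝ v (f n)),
        h1 (f (n + 1)), h1 (f n)] with z e1 e2 e3
      rw [e1, Pi.sub_apply, e2, e3]
    rw [lintegral_const_mul' _ _ ENNReal.ofReal_ne_top, ← enorm_sq_eq _ h6,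
      ← ENNReal.ofReal_mul (by positivity)]
    refine ENNReal.ofReal_le_ofReal ?_
    calc _ ≤ θ⁻¹ ^ n * (C * θ ^ n) ^ 2 := by gcongr; exact (h3 n).trans (hbn n)
      _ = _ := by rw [inv_pow]; field_simp
  have hB' : ∀ h, ∀ᵐ g ∂μ,
      ∑' n, ∫⁻ y, ‖η (f n) (h⁻¹ * g, y) - η (f n) (g, y)‖ₑ ^ 2 ∂ν < ∞ := fun h => by
    refine D.ae_tsum hl hω (Φ := fun n z => ‖η (f n) (Lt h⁻¹ z) - η (f n) z‖ₑ ^ 2)
      (fun n => (((hη _).fun_comp (measurable_Lt _)).sub (hη _)).enorm.pow_const 2)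
      (fun n γ z => by
        rw [hηT, show Lt h⁻¹ (T ι γ z) = T ι γ (Lt h⁻¹ z) by simp [Lt, T, mul_assoc], hηT])
      (sq_nonneg ((Real.exp (ω (len h)) + 1) * C)) hθ.le hθ1 fun n => ?_
    have h6 : linearCombination ℝ (fun g => v (h * g)) (f n) - linearCombination ℝ v (f n)
        =ᵐ[D.m ω ν] fun z => η (f n) (Lt h⁻¹ z) - η (f n) z := by
      filter_upwards [Lp.coeFn_sub (linearCombination ℝ (fun g => v (h * g)) (f n))
        (linearCombination ℝ v (f n)), h2 h (f n), h1 (f n)] with z e1 e2 e3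
      rw [e1, Pi.sub_apply, e2, e3]
    rw [← enorm_sq_eq _ h6]
    refine ENNReal.ofReal_le_ofReal ?_
    have h7 : θ ^ n ≤ 1 := pow_le_one₀ hθ.le hθ1.le
    calc _ ≤ ((Real.exp (ω (len h)) + 1) * (C * θ ^ n)) ^ 2 := by
          gcongr
          exact (h4 h n).trans (mul_le_mul_of_nonneg_left (hbn n) (by positivity))
      _ = ((Real.exp (ω (len h)) + 1) * C) ^ 2 * θ ^ n * θ ^ n := by ring
      _ ≤ _ := mul_le_of_le_one_right (by positivity) h7
  have hm : MeasurableSet {p : G × G |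
      ∑' n, ∫⁻ y, ‖η (f n) (p.1⁻¹ * p.2, y) - η (f n) (p.2, y)‖ₑ ^ 2 ∂ν < ∞} := by
    refine measurableSet_lt (Measurable.ennreal_tsum fun n => ?_) measurable_const
    refine Measurable.lintegral_prod_right' (f := fun q : (G × G) × Y =>
      ‖η (f n) (q.1.1⁻¹ * q.1.2, q.2) - η (f n) (q.1.2, q.2)‖ₑ ^ 2) ?_
    exact (((hη _).fun_comp (by fun_prop)).sub ((hη _).fun_comp (by fun_prop))).enorm.pow_const 2
  obtain ⟨g₁, hg₁⟩ := ((Measure.ae_ae_comm hm).1 (ae_of_all μ hB')).exists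
  have hE : ∀ᵐ g ∂μ, ∑' n, ∫⁻ y, ‖η (f n) (g, y) - η (f n) (g₁, y)‖ₑ ^ 2 ∂ν < ∞ := by
    simpa using (quasiMeasurePreserving_div_left μ g₁).ae hg₁
  have hE' : ∀ δ : Γ, ∀ᵐ g ∂μ,
      ∑' n, ∫⁻ y, ‖η (f n) (g * ι δ, y) - η (f n) (g₁, y)‖ₑ ^ 2 ∂ν < ∞ := fun δ =>
    (MeasurePreserving.quasiMeasurePreserving ⟨measurable_mul_const _, D.right δ⟩).ae hE
  obtain ⟨g₀, hg₀, hg₀'⟩ := (hA.and (ae_all_iff.2 hE')).exists
  have ht : ∀ n y, linearCombination ℝ (fun γ => u (γ • y))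
      (mapDomain (fun g => D.c (g⁻¹ * g₀)) (f n)) = η (f n) (g₀, y) := fun n y =>
    linearCombination_mapDomain ℝ _ _
  refine ⟨fun n => mapDomain (fun g => D.c (g⁻¹ * g₀)) (f n), 2 * N + 2 * len g₀,
    fun n => (∑' n, ∫⁻ y, ENNReal.ofReal (θ⁻¹ ^ n) *
      ‖η (f (n + 1)) (g₀, y) - η (f n) (g₀, y)‖ₑ ^ 2 ∂ν).toReal * θ ^ n,
    ⟨_, θ, ENNReal.toReal_nonneg, hθ, hθ1, fun n => le_rfl⟩, fun n => ⟨?_, ?_, fun γ hγ => ?_⟩,
    fun n => ?_, fun δ => ?_⟩
  · exact mapDomain_nonneg (hf n).nonneg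
  · rw [linearCombination_mapDomain]
    exact (hf n).one
  · classical
    obtain ⟨g, hg, rfl⟩ := Finset.mem_image.1 (mapDomain_support (mem_support_iff.2 hγ))
    have h6 : len g ≤ n + N := (hf n).supp g (mem_support_iff.1 hg)
    have h7 := D.len_le hl (g⁻¹ * g₀)
    have h8 := hl.mul g⁻¹ g₀
    rw [hl.inv] at h8
    change len (ι (D.c (g⁻¹ * g₀))) ≤ _
    linarith
  · simp only [ht]
    have h6 := ENNReal.le_tsum (f := fun n => ∫⁻ y, ENNReal.ofReal (θ⁻¹ ^ n) *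
      ‖η (f (n + 1)) (g₀, y) - η (f n) (g₀, y)‖ₑ ^ 2 ∂ν) n
    rw [lintegral_const_mul' _ _ ENNReal.ofReal_ne_top] at h6
    rw [ENNReal.ofReal_mul ENNReal.toReal_nonneg, ENNReal.ofReal_toReal hg₀.ne]
    refine le_trans (le_of_eq ?_) (mul_le_mul_left h6 _)
    rw [mul_right_comm, ← ENNReal.ofReal_mul (by positivity), ← mul_pow, inv_mul_cancel₀ hθ.ne',
      one_pow, ENNReal.ofReal_one, one_mul]
  · simp only [ht]
    have h6 := (ENNReal.tendsto_atTop_zero_of_tsum_ne_top (hg₀' δ).ne).add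
      (ENNReal.tendsto_atTop_zero_of_tsum_ne_top (hg₀' 1).ne)
    have h7 := ENNReal.Tendsto.const_mul (a := 2) h6 (Or.inr ENNReal.ofNat_ne_top)
    rw [add_zero, mul_zero] at h7
    refine tendsto_of_tendsto_of_tendsto_of_le_of_le tendsto_const_nhds h7 (fun _ => zero_le)
      fun n => ?_
    have h8 : ∀ y, η (f n) (g₀, δ • y) = η (f n) (g₀ * ι δ, y) := fun y => by
      rw [← hηT _ δ (g₀ * ι δ, y)]
      simp [T]
    have h9 : ∀ g, Measurable fun y => ‖η (f n) (g, y) - η (f n) (g₁, y)‖ₑ ^ 2 := fun g =>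
      (((hη _).fun_comp measurable_prodMk_left).sub
        ((hη _).fun_comp measurable_prodMk_left)).enorm.pow_const 2
    simp only [h8, map_one, mul_one]
    rw [← lintegral_add_left (h9 _), ← lintegral_const_mul' _ _ ENNReal.ofNat_ne_top]
    exact lintegral_mono fun y => enorm_sub_sq_le _ _ _

end Pool.Agent.P.MP_d483fb_an.Z.Int
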