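import Pool.Agent.P.MP_d483fb_an.Z.Int.Defs

/-!
Rates of growth and decay, and the averaging theorem for one orbit map into a Hilbert space.
-/

open MeasureTheory Filter Topology Set Finsupp

noncomputable section

namespace Pool.Agent.P.MP_d483fb_an.Z.Int

/-- Geometric decay. -/
def Geo (a : ℕ → ℝ) : Prop := ∃ C θ : ℝ, 0 ≤ C ∧ 0 < θ ∧ θ < 1 ∧ ∀ n, a n ≤ C * θ ^ n

/-- Subexponential growth. -/
def Sub (a : ℕ → ℝ) : Prop := ∀ θ : ℝ, 1 < θ → ∃ C, 0 ≤ C ∧ ∀ n, a n ≤ C * θ ^ n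

theorem Geo.mono {a b : ℕ → ℝ} (h : Geo a) (hb : ∀ n, b n ≤ a n) : Geo b := by
  obtain ⟨C, θ, h0, h1, h2, h3⟩ := h
  exact ⟨C, θ, h0, h1, h2, fun n => (hb n).trans (h3 n)⟩

theorem Geo.add {a b : ℕ → ℝ} (h : Geo a) (h' : Geo b) : Geo fun n => a n + b n := by
  obtain ⟨C, θ, h0, h1, h2, h3⟩ := h
  obtain ⟨C', θ', h0', h1', h2', h3'⟩ := h'
  refine ⟨C + C', max θ θ', by positivity, lt_max_of_lt_left h1, max_lt h2 h2', fun n => ?_⟩
  rw [add_mul]
  refine add_le_add ((h3 n).trans ?_) ((h3' n).trans ?_)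
  · gcongr
    exact le_max_left _ _
  · gcongr
    exact le_max_right _ _

theorem Geo.mul {a b : ℕ → ℝ} (h : Geo a) (h' : Sub b) (hb : ∀ n, 0 ≤ b n) :
    Geo fun n => b n * a n := by
  obtain ⟨C, θ, h0, h1, h2, h3⟩ := h
  have h4 : 1 < (1 + θ) / (2 * θ) := by rw [lt_div_iff₀ (by positivity)]; linarith
  obtain ⟨C', h0', h3'⟩ := h' _ h4
  refine ⟨C' * C, (1 + θ) / 2, by positivity, by positivity, by linarith, fun n => ?_⟩
  calc b n * a n ≤ b n * (C * θ ^ n) := by gcongr; exacts [hb n, h3 n]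
    _ ≤ C' * ((1 + θ) / (2 * θ)) ^ n * (C * θ ^ n) := by gcongr; exact h3' n
    _ = C' * C * (((1 + θ) / (2 * θ)) * θ) ^ n := by rw [mul_pow]; ring
    _ = _ := by congr 2; field_simp

theorem Sub.const (c : ℝ) : Sub fun _ => c := fun θ hθ =>
  ⟨|c|, abs_nonneg c, fun n => (le_abs_self c).trans
    (le_mul_of_one_le_right (abs_nonneg c) (one_le_pow₀ hθ.le))⟩

theorem Sub.mono {a b : ℕ → ℝ} (h : Sub a) (hb : ∀ n, b n ≤ a n) : Sub b := fun θ hθ =>
  let ⟨C, h0, h1⟩ := h θ hθ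
  ⟨C, h0, fun n => (hb n).trans (h1 n)⟩

theorem Sub.add {a b : ℕ → ℝ} (h : Sub a) (h' : Sub b) : Sub fun n => a n + b n := fun θ hθ => by
  obtain ⟨C, h0, h1⟩ := h θ hθ
  obtain ⟨C', h0', h1'⟩ := h' θ hθ
  exact ⟨C + C', by positivity, fun n => by rw [add_mul]; exact add_le_add (h1 n) (h1' n)⟩

theorem Sub.mul {a b : ℕ → ℝ} (h : Sub a) (h' : Sub b) (hb : ∀ n, 0 ≤ b n) :
    Sub fun n => a n * b n := fun θ hθ => by
  have h4 : 1 < √θ := by rw [Real.lt_sqrt zero_le_one]; simpa using hθ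
  obtain ⟨C, h0, h1⟩ := h _ h4
  obtain ⟨C', h0', h1'⟩ := h' _ h4
  refine ⟨C * C', by positivity, fun n => ?_⟩
  calc a n * b n ≤ C * √θ ^ n * (C' * √θ ^ n) :=
        mul_le_mul (h1 n) (h1' n) (hb n) (by positivity)
    _ = C * C' * (√θ * √θ) ^ n := by rw [mul_pow]; ring
    _ = _ := by rw [Real.mul_self_sqrt (by linarith)]

theorem Sub.pow {a : ℕ → ℝ} (h : Sub a) (ha : ∀ n, 0 ≤ a n) (k : ℕ) : Sub fun n => a n ^ k := by
  induction k with
  | zero => simpa using Sub.const 1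
  | succ k ih => simpa [pow_succ] using ih.mul h ha

theorem Sub.nat : Sub fun n => (n : ℝ) := fun θ hθ => by
  refine ⟨(θ - 1)⁻¹, inv_nonneg.2 (by linarith), fun n => ?_⟩
  have h := one_add_mul_le_pow (a := θ - 1) (by linarith) n
  rw [add_sub_cancel] at h
  rw [← div_eq_inv_mul, le_div_iff₀ (by linarith)]
  linarith

theorem Geo.const_mul {a : ℕ → ℝ} (h : Geo a) {c : ℝ} (hc : 0 ≤ c) : Geo fun n => c * a n :=
  h.mul (Sub.const c) fun _ => hc

/-- The choice of an interpolation scale. -/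
theorem Geo.scale {b Λ : ℕ → ℝ} (h : Geo b) (h' : Sub Λ) (hΛ : ∀ n, 0 ≤ Λ n) (D : ℕ) {t₀ : ℝ}
    (ht : 0 < t₀) : ∃ t : ℕ → ℝ, (∀ n, 0 < t n ∧ t n ≤ t₀) ∧
      Geo fun n => Λ n * t n + b n / t n ^ D := by
  obtain ⟨C, θ, h0, h1, h2, h3⟩ := h
  have h4 : ∀ᶠ σ in 𝓝[<] (1 : ℝ), θ < σ ^ D := by
    refine mem_nhdsWithin_of_mem_nhds ?_
    exact (continuous_pow D).continuousAt.eventually (lt_mem_nhds (by simpa using h2))
  have h5 : ∀ᶠ σ in 𝓝[<] (1 : ℝ), 0 < σ := mem_nhdsWithin_of_mem_nhds (lt_mem_nhds one_pos)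
  obtain ⟨σ, ⟨h6, h7⟩, h8⟩ := ((h4.and h5).and self_mem_nhdsWithin).exists
  have h9 : σ < 1 := h8
  refine ⟨fun n => t₀ * σ ^ n, fun n => ⟨by positivity,
    mul_le_of_le_one_right ht.le (pow_le_one₀ h7.le h9.le)⟩, Geo.add ?_ ?_⟩
  · exact Geo.mul ⟨t₀, σ, ht.le, h7, h9, fun n => le_rfl⟩ h' hΛ
  · refine ⟨C / t₀ ^ D, θ / σ ^ D, by positivity, by positivity,
      (div_lt_one (by positivity)).2 h6, fun n => ?_⟩
    calc b n / (t₀ * σ ^ n) ^ D ≤ C * θ ^ n / (t₀ * σ ^ n) ^ D := by gcongr; exact h3 n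
      _ = _ := by rw [mul_pow, div_pow, ← pow_mul, ← pow_mul, mul_comm n D]; field_simp

theorem Geo.tendsto {a : ℕ → ℝ} (h : Geo a) (ha : ∀ n, 0 ≤ a n) : Tendsto a atTop (𝓝 0) := by
  obtain ⟨C, θ, -, h1, h2, h3⟩ := h
  refine squeeze_zero ha h3 ?_
  simpa using (tendsto_pow_atTop_nhds_zero_of_lt_one h1.le h2).const_mul C

/-- Tails of a geometrically converging family of sequences. -/
theorem Geo.tail {a : ℕ → ℝ} (h : Geo a) : ∃ e : ℕ → ℝ, Geo e ∧ (∀ n, 0 ≤ e n) ∧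
    ∀ (x : ℕ → ℝ) (K : ℝ), 0 ≤ K → (∀ n, |x (n + 1) - x n| ≤ a n * K) →
      CauchySeq x ∧ ∀ l, Tendsto x atTop (𝓝 l) → ∀ n, |l - x n| ≤ e n * K := by
  obtain ⟨C, θ, h0, h1, h2, h3⟩ := h
  have h4 : 0 < 1 - θ := by linarith
  refine ⟨fun n => C / (1 - θ) * θ ^ n, ⟨C / (1 - θ), θ, by positivity, h1, h2, fun n => le_rfl⟩,
    fun n => by positivity, fun x K hK hx => ?_⟩
  have h5 : ∀ n, dist (x n) (x (n + 1)) ≤ C * K * θ ^ n := fun n => by
    rw [dist_comm, Real.dist_eq]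
    refine (hx n).trans ?_
    calc a n * K ≤ C * θ ^ n * K := by gcongr; exact h3 n
      _ = _ := by ring
  refine ⟨cauchySeq_of_le_geometric θ _ h2 h5, fun l hl n => ?_⟩
  have h6 := dist_le_of_le_geometric_of_tendsto θ _ h2 h5 hl n
  rw [dist_comm, Real.dist_eq] at h6
  refine h6.trans (le_of_eq ?_)
  ring

/-- A finitely supported probability vector with support in `S`. -/
structure Prob {G : Type} (S : Set G) (f : G →₀ ℝ) : Prop where
  nonneg : ∀ g, 0 ≤ f g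
  one : linearCombination ℝ (fun _ => (1 : ℝ)) f = 1
  supp : ∀ g, f g ≠ 0 → g ∈ S

variable {G : Type} [Group G] [TopologicalSpace G] [IsTopologicalGroup G] [MeasurableSpace G]
  {len : G → ℝ} {L : Type} [NormedAddCommGroup L] [InnerProductSpace ℝ L] [CompleteSpace L]

theorem orbit (hl : IsLen len) (hST : StrongT len) (v : G → L) (W : G → ℝ) (hW0 : ∀ g, 0 ≤ W g)
    (hW : ∀ ε : ℝ, 0 < ε → ∃ C, ∀ g, W g ≤ C * Real.exp (ε * len g))
    (hb : ∀ h f, ‖linearCombination ℝ (fun g => v (h * g)) f‖ ≤ W h * ‖linearCombination ℝ v f‖)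
    (hc : ContinuousAt v 1) :
    ∃ (f : ℕ → G →₀ ℝ) (N : ℕ) (b : ℕ → ℝ), Geo b ∧ (∀ n : ℕ, Prob {g | len g ≤ n + N} (f n)) ∧
      (∀ n, ‖linearCombination ℝ v (f (n + 1)) - linearCombination ℝ v (f n)‖ ≤ b n) ∧
      ∀ h n, ‖linearCombination ℝ (fun g => v (h * g)) (f n) - linearCombination ℝ v (f n)‖ ≤
        (W h + 1) * b n := by
  let H : Submodule ℝ L := (LinearMap.range (linearCombination ℝ v)).topologicalClosure
  haveI : CompleteSpace H := (Submodule.isClosed_topologicalClosure _).completeSpace_coe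
  let e : (G →₀ ℝ) →ₗ[ℝ] H := (linearCombination ℝ v).codRestrict H fun f =>
    Submodule.le_topologicalClosure _ (LinearMap.mem_range_self _ f)
  have he : ∀ f, (e f : L) = linearCombination ℝ v f := fun f => rfl
  have hd : DenseRange e := by
    rw [DenseRange, Subtype.dense_iff]
    intro x hx
    have h1 : x ∈ closure (LinearMap.range (linearCombination ℝ v) : Set L) := hx
    refine closure_mono ?_ h1
    rintro _ ⟨f, rfl⟩
    exact ⟨e f, mem_range_self f, rfl⟩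
  let tr : G → (G →₀ ℝ) →ₗ[ℝ] (G →₀ ℝ) := fun h => lmapDomain ℝ ℝ fun g => h * g
  have htr : ∀ h f, (e (tr h f) : L) = linearCombination ℝ (fun g => v (h * g)) f := fun h f => by
    rw [he]
    exact linearCombination_mapDomain ℝ _ _
  have hn : ∀ h f, ‖(e ∘ₗ tr h) f‖ ≤ W h * ‖e f‖ := fun h f => by
    have := hb h f
    rwa [← htr, ← he] at this
  have hp : ∀ h f, (e ∘ₗ tr h).extendOfNorm e (e f) = e (tr h f) := fun h f =>
    LinearMap.extendOfNorm_eq hd ⟨_, hn h⟩ f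
  have hext : ∀ A B : H →L[ℝ] H, (∀ f, A (e f) = B (e f)) → A = B := fun A B h =>
    ContinuousLinearMap.ext fun x => congrFun (hd.equalizer A.continuous B.continuous (funext h)) x
  let π : G →* (H →L[ℝ] H) :=
    { toFun := fun h => (e ∘ₗ tr h).extendOfNorm e
      map_one' := hext _ _ fun f => by
        rw [hp]
        refine Subtype.ext ?_
        rw [htr]
        simp [he]
      map_mul' := fun a b => hext _ _ fun f => by
        rw [ContinuousLinearMap.mul_apply, hp, hp, hp]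
        congr 1
        simp only [tr, lmapDomain_apply]
        rw [← mapDomain_comp]
        congr 1
        funext g
        simp [mul_assoc] }
  have hπ : ∀ h f, (π h (e f) : L) = linearCombination ℝ (fun g => v (h * g)) f := fun h f => by
    rw [← htr]
    exact congrArg _ (hp h f)
  have hπn : ∀ h, ‖π h‖ ≤ W h := fun h => LinearMap.opNorm_extendOfNorm_le hd (hW0 h) (hn h)
  have hv : Continuous v := continuous_iff_continuousAt.2 fun g₀ => by
    have h1 : Tendsto (fun g => g₀⁻¹ * g) (𝓝 g₀) (𝓝 1) := by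
      simpa using (continuous_const_mul g₀⁻¹).tendsto g₀
    have h2 := (tendsto_iff_norm_sub_tendsto_zero.1 (hc.tendsto.comp h1)).const_mul (W g₀)
    rw [mul_zero] at h2
    refine tendsto_iff_norm_sub_tendsto_zero.2 (squeeze_zero (fun _ => norm_nonneg _)
      (fun g => ?_) h2)
    have h3 := hb g₀ (single (g₀⁻¹ * g) 1 - single 1 1)
    rw [map_sub, map_sub] at h3
    simpa using h3
  have hcont : ∀ ξ, Continuous fun g => π g ξ := fun ξ => continuous_iff_continuousAt.2 fun g₀ => by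
    obtain ⟨C, hC⟩ := hW 1 one_pos
    obtain ⟨C', hC'⟩ := hl.loc
    have h1 : Tendsto (fun g => g₀⁻¹ * g) (𝓝 g₀) (𝓝 1) := by
      simpa using (continuous_const_mul g₀⁻¹).tendsto g₀
    obtain ⟨B, hB0, hB⟩ : ∃ B, 0 < B ∧ ∀ᶠ g in 𝓝 g₀, ‖π g‖ ≤ B := by
      refine ⟨|C| * Real.exp (len g₀ + C') + 1, by positivity, (h1.eventually hC').mono
        fun g hg => (hπn g).trans ((hC g).trans ?_)⟩
      have h2 := hl.mul g₀ (g₀⁻¹ * g)
      rw [mul_inv_cancel_left] at h2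
      have h3 : Real.exp (1 * len g) ≤ Real.exp (len g₀ + C') :=
        Real.exp_le_exp.2 (by linarith)
      have h4 := mul_le_mul (le_abs_self C) h3 (Real.exp_pos _).le (abs_nonneg C)
      linarith
    refine Metric.tendsto_nhds.2 fun ε hε => ?_
    obtain ⟨f, hf⟩ := Metric.denseRange_iff.1 hd ξ (ε / 3 / B) (by positivity)
    have h2 : Continuous fun g => π g (e f) := by
      rw [IsInducing.subtypeVal.continuous_iff]
      simp only [Function.comp_def, hπ, linearCombination_apply, Finsupp.sum]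
      exact continuous_finset_sum _ fun x _ => (hv.comp (continuous_mul_const x)).const_smul _
    filter_upwards [hB, Metric.tendsto_nhds.1 (h2.tendsto g₀) (ε / 3) (by positivity)] with g h3 h4
    have h5 : ∀ g, ‖π g‖ ≤ B → dist (π g ξ) (π g (e f)) ≤ ε / 3 := fun g hg => by
      refine ((π g).dist_le_opNorm _ _).trans ?_
      calc ‖π g‖ * dist ξ (e f) ≤ B * (ε / 3 / B) := by gcongr
        _ = ε / 3 := by field_simp
    have h6 := dist_triangle4 (π g ξ) (π g (e f)) (π g₀ (e f)) (π g₀ ξ)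
    have h7 := h5 g₀ hB.self_of_nhds
    rw [dist_comm] at h7
    linarith [h5 g h3]
  obtain ⟨ζ, hζ, C, θ, h0, h1, h2⟩ := hST H π hcont
    (fun ε hε => (hW ε hε).imp fun C hC g => (hπn g).trans (hC g)) (e (single 1 1))
  obtain ⟨N, hN⟩ := eventually_atTop.1 h2
  have h3 : ∀ n : ℕ, ∃ f, Prob {g | len g ≤ n + N} f ∧ ‖ζ - e f‖ ≤ |C| * θ ^ n := fun n => by
    obtain ⟨η, h4, h5⟩ := hN (n + N) (by omega)
    have h6 : η ∈ e '' {f | Prob {g | len g ≤ n + N} f} := by
      refine convexHull_min ?_ (Convex.linear_image ?_ e) h4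
      · rintro _ ⟨g, hg, rfl⟩
        refine ⟨single g 1, ⟨fun x => single_nonneg.2 zero_le_one x, by simp, fun x hx => ?_⟩,
          Subtype.ext (by simp [hπ, he])⟩
        obtain rfl : x = g := by
          by_contra hne
          exact hx (single_eq_of_ne hne)
        simpa using hg
      · intro f hf f' hf' a b ha hb' hab
        refine ⟨fun g => add_nonneg (mul_nonneg ha (hf.nonneg g)) (mul_nonneg hb' (hf'.nonneg g)),
          by rw [map_add, map_smul, map_smul, hf.one, hf'.one]; simpa using hab, fun g hg => ?_⟩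
        by_contra hne
        have e1 : f g = 0 := by_contra fun h => hne (hf.supp g h)
        have e2 : f' g = 0 := by_contra fun h => hne (hf'.supp g h)
        exact hg (by simp [e1, e2])
    obtain ⟨f, hf, rfl⟩ := h6
    refine ⟨f, hf, h5.trans ?_⟩
    exact mul_le_mul (le_abs_self C) (pow_le_pow_of_le_one h0.le h1.le (by omega))
      (by positivity) (abs_nonneg C)
  choose f hf hf' using h3
  refine ⟨f, N, fun n => 2 * |C| * θ ^ n, ⟨2 * |C|, θ, by positivity, h0, h1, fun n => le_rfl⟩, hf,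
    fun n => ?_, fun h n => ?_⟩
  · have h4 : |C| * θ ^ (n + 1) ≤ |C| * θ ^ n :=
      mul_le_mul_of_nonneg_left (pow_le_pow_of_le_one h0.le h1.le (by omega)) (abs_nonneg C)
    have h5 : ‖e (f (n + 1)) - e (f n)‖ ≤ ‖ζ - e (f (n + 1))‖ + ‖ζ - e (f n)‖ := by
      rw [← dist_eq_norm, ← dist_eq_norm, ← dist_eq_norm]
      exact dist_triangle_left _ _ _
    have h6 : ‖e (f (n + 1)) - e (f n)‖ =
      ‖linearCombination ℝ v (f (n + 1)) - linearCombination ℝ v (f n)‖ := rfl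
    linarith [hf' n, hf' (n + 1)]
  · have h5 : ‖π h (e (f n)) - e (f n)‖ ≤ ‖ζ - π h (e (f n))‖ + ‖ζ - e (f n)‖ := by
      rw [← dist_eq_norm, ← dist_eq_norm, ← dist_eq_norm]
      exact dist_triangle_left _ _ _
    have h6 : ‖ζ - π h (e (f n))‖ ≤ W h * (|C| * θ ^ n) := by
      conv_lhs => rw [← hζ h, ← map_sub]
      exact ((π h).le_opNorm _).trans (mul_le_mul (hπn h) (hf' n) (norm_nonneg _) (hW0 h))
    have h7 : ‖π h (e (f n)) - e (f n)‖ = ‖linearCombination ℝ (fun g => v (h * g)) (f n) -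
        linearCombination ℝ v (f n)‖ := by
      rw [← hπ]
      rfl
    have h8 : 0 ≤ |C| * θ ^ n := by positivity
    nlinarith [hf' n, hW0 h]

end Pool.Agent.P.MP_d483fb_an.Z.Int
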